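import Pool.Agent.Helper70.SK.Stmts
import Pool.Agent.Helper70.SK.Lib

set_option autoImplicit false

namespace Pool.Agent.Helper70.SK

open Finset Pool.Agent.Helper70.DK

theorem afl_id {Ω α β γ δ ζ η : Type} (S : Finset Ω) (F : Ω → α) (P : Ω → β) (T : Ω → γ) (T' : Ω → δ)
    (b : Ω → ζ) (z : Ω → η) (hP : ∀ x ∈ S, ∀ y ∈ S, F x = F y → P x = P y)
    (hb : ∀ x ∈ S, ∀ y ∈ S, T x = T y → b x = b y)
    (hb' : ∀ x ∈ S, ∀ y ∈ S, T' x = T' y → b x = b y) :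
    cent S F (fun ω => (T ω, P ω, z ω)) - cent S F (fun ω => (T' ω, T ω, P ω, z ω)) =
      (cent S T (fun ω => (F ω, b ω, z ω)) - cent S T (fun ω => (T' ω, F ω, b ω, z ω))) -
      (cent S T (fun ω => (P ω, b ω, z ω)) - cent S T (fun ω => (T' ω, P ω, b ω, z ω))) +
      (ent S (fun ω => (F ω, b ω, z ω)) - ent S (fun ω => (P ω, b ω, z ω))) -
      (ent S (fun ω => (T' ω, F ω, z ω)) - ent S (fun ω => (T' ω, P ω, z ω))) := by
  unfold cent
  have e1 : ent S (fun ω => (F ω, T ω, P ω, z ω)) = ent S (fun ω => (T ω, F ω, b ω, z ω)) := by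
    refine ent_congr S _ _ fun x hx y hy => ?_
    simp only [Prod.mk.injEq]
    constructor
    · rintro ⟨h1, h2, h3, h4⟩
      exact ⟨h2, h1, hP x hx y hy h2, h4⟩
    · rintro ⟨h1, h2, h3, h4⟩
      exact ⟨h2, h1, hb x hx y hy h2, h4⟩
  have e2 : ent S (fun ω => (T ω, P ω, z ω)) = ent S (fun ω => (T ω, P ω, b ω, z ω)) := by
    refine ent_congr S _ _ fun x hx y hy => ?_
    simp only [Prod.mk.injEq]
    constructor
    · rintro ⟨h1, h2, h3, h4⟩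
      exact ⟨h1, h2, h4⟩
    · rintro ⟨h1, h2, h3⟩
      exact ⟨h1, h2, hb x hx y hy h1, h3⟩
  have e3 : ent S (fun ω => (F ω, T' ω, T ω, P ω, z ω)) = ent S (fun ω => (T ω, T' ω, F ω, b ω, z ω)) := by
    refine ent_congr S _ _ fun x hx y hy => ?_
    simp only [Prod.mk.injEq]
    constructor
    · rintro ⟨h1, h2, h3, h4, h5⟩
      exact ⟨h3, h2, h1, hP x hx y hy h3, h5⟩
    · rintro ⟨h1, h2, h3, h4, h5⟩
      exact ⟨h3, h2, h1, hb x hx y hy h3, h5⟩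
  have e4 : ent S (fun ω => (T' ω, T ω, P ω, z ω)) = ent S (fun ω => (T ω, T' ω, P ω, b ω, z ω)) := by
    refine ent_congr S _ _ fun x hx y hy => ?_
    simp only [Prod.mk.injEq]
    constructor
    · rintro ⟨h1, h2, h3, h4, h5⟩
      exact ⟨h2, h1, h3, h5⟩
    · rintro ⟨h1, h2, h3, h4⟩
      exact ⟨h2, h1, h3, hb x hx y hy h2, h4⟩
  have e5 : ent S (fun ω => (T' ω, F ω, b ω, z ω)) = ent S (fun ω => (T' ω, F ω, z ω)) := by
    refine ent_congr S _ _ fun x hx y hy => ?_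
    simp only [Prod.mk.injEq]
    constructor
    · rintro ⟨h1, h2, h3⟩
      exact ⟨h1, h2, hb' x hx y hy h1, h3⟩
    · rintro ⟨h1, h2, h3, h4⟩
      exact ⟨h1, h2, h4⟩
  have e6 : ent S (fun ω => (T' ω, P ω, b ω, z ω)) = ent S (fun ω => (T' ω, P ω, z ω)) := by
    refine ent_congr S _ _ fun x hx y hy => ?_
    simp only [Prod.mk.injEq]
    constructor
    · rintro ⟨h1, h2, h3⟩
      exact ⟨h1, h2, hb' x hx y hy h1, h3⟩
    · rintro ⟨h1, h2, h3, h4⟩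
      exact ⟨h1, h2, h4⟩
  rw [e1, e2, e3, e4, e5, e6]
  ring

theorem afl_f (B : ℕ) (hB : 2 ≤ B) (x y : ℕ) (h : x ≤ y) :
    ((y : ℝ) * Real.log B + 2) / (B : ℝ) ^ y ≤ ((x : ℝ) * Real.log B + 2) / (B : ℝ) ^ x := by
  have hB' : (2 : ℝ) ≤ B := by exact_mod_cast hB
  have hL0 : 0 ≤ Real.log B := Real.log_nonneg (by linarith)
  have hL1 : Real.log B ≤ B - 1 := Real.log_le_sub_one_of_pos (by linarith)
  induction y, h using Nat.le_induction with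
  | base => exact le_refl _
  | succ y hy ih =>
    refine le_trans ?_ ih
    have hp : (0 : ℝ) < (B : ℝ) ^ y := by positivity
    rw [pow_succ, div_le_div_iff₀ (by positivity) hp]
    have h1 : (((y + 1 : ℕ) : ℝ) * Real.log B + 2) ≤ ((y : ℝ) * Real.log B + 2) * B := by
      push_cast
      have h2 : (0 : ℝ) ≤ (y : ℝ) * Real.log B := by positivity
      nlinarith
    calc (((y + 1 : ℕ) : ℝ) * Real.log B + 2) * (B : ℝ) ^ y
        ≤ (((y : ℝ) * Real.log B + 2) * B) * (B : ℝ) ^ y := by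
          exact mul_le_mul_of_nonneg_right h1 hp.le
      _ = ((y : ℝ) * Real.log B + 2) * ((B : ℝ) ^ y * B) := by ring

/-- comparison of `Cf` and `C` -/
theorem afl_fano (h2 : ST_FANO) {m q : ℕ} (σ : Sy m q) (B : ℕ) (hB : 2 ≤ B) (K l : ℕ) (hl : l ≤ K)
    (hK : K ≤ σ.n) {ζ : Type} (Z : BS m q → ζ) :
    cent (σ.Om B) (fun ω => σ.Cf B K l ω.1 ω.2) (fun ω => (σ.C B l ω, Z ω)) ≤
      q * ((((K - l : ℕ) : ℝ) * Real.log B + 2) / (B : ℝ) ^ (K - l)) ∧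
    cent (σ.Om B) (σ.C B l) (fun ω => (σ.Cf B K l ω.1 ω.2, Z ω)) ≤
      q * ((((K - l : ℕ) : ℝ) * Real.log B + 2) / (B : ℝ) ^ (K - l)) := by
  have hB' : (2 : ℝ) ≤ B := by exact_mod_cast hB
  have hB0 : 0 < B := by omega
  have hel : σ.e l = σ.e K + (K - l) := by
    unfold Sy.e
    omega
  have hM : σ.e l ≤ σ.n + σ.a1 + σ.a3 := by
    unfold Sy.e
    omega
  have hs : 0 < B ^ σ.e l := by positivity
  have hdvd : B ^ σ.e l ∣ B ^ (σ.n + σ.a1 + σ.a3) := pow_dvd_pow B hM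
  have hMp : 0 < B ^ (σ.n + σ.a1 + σ.a3) := by positivity
  have hρ : (0 : ℝ) < (B : ℝ) ^ σ.e K := by positivity
  have hρs : (B : ℝ) ^ σ.e K ≤ ((B ^ σ.e l : ℕ) : ℝ) := by
    push_cast
    exact pow_le_pow_right₀ (by linarith) (by omega)
  have hratio : (B : ℝ) ^ σ.e K / ((B ^ σ.e l : ℕ) : ℝ) = 1 / (B : ℝ) ^ (K - l) := by
    push_cast
    rw [hel, pow_add]
    field_simp
  have hratio2 : ((B ^ σ.e l : ℕ) : ℝ) / (B : ℝ) ^ σ.e K = (B : ℝ) ^ (K - l) := by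
    push_cast
    rw [hel, pow_add]
    field_simp
  have hval : (q : ℝ) * ((B : ℝ) ^ σ.e K / ((B ^ σ.e l : ℕ) : ℝ)) *
      (Real.log (((B ^ σ.e l : ℕ) : ℝ) / (B : ℝ) ^ σ.e K) + 2) =
      q * ((((K - l : ℕ) : ℝ) * Real.log B + 2) / (B : ℝ) ^ (K - l)) := by
    rw [hratio, hratio2, Real.log_pow]
    ring
  have hdist : ∀ (p : ℕ × (Fin m → ℤ)) (r : Fin q),
      |(((B : ℤ) ^ σ.e K * (σ.Y B p.1 p.2 r / (B : ℤ) ^ σ.e K) : ℤ) : ℝ) - ((σ.Y B p.1 p.2 r : ℤ) : ℝ)| ≤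
        (B : ℝ) ^ σ.e K := by
    intro p r
    set y := σ.Y B p.1 p.2 r
    have hp : (0 : ℤ) < (B : ℤ) ^ σ.e K := by positivity
    have h1 := Int.emod_nonneg y hp.ne'
    have h2 := Int.emod_lt_of_pos y hp
    have h3 := Int.mul_ediv_add_emod y ((B : ℤ) ^ σ.e K)
    have h4 : (((B : ℤ) ^ σ.e K * (y / (B : ℤ) ^ σ.e K) : ℤ) : ℝ) - (y : ℝ) =
        -((y % (B : ℤ) ^ σ.e K : ℤ) : ℝ) := by
      have : ((B : ℤ) ^ σ.e K * (y / (B : ℤ) ^ σ.e K)) - y = -(y % (B : ℤ) ^ σ.e K) := by linarith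
      exact_mod_cast this
    rw [h4, abs_neg, abs_of_nonneg (by exact_mod_cast h1)]
    exact_mod_cast h2.le
  constructor
  · have := (h2 (ℕ × (Fin m → ℤ)) q (B ^ (σ.n + σ.a1 + σ.a3)) (B ^ σ.e l) (σ.GX B)
      (fun p r => (B : ℤ) ^ σ.e K * (σ.Y B p.1 p.2 r / (B : ℤ) ^ σ.e K)) (fun p => σ.Y B p.1 p.2)
      ((B : ℝ) ^ σ.e K) hs hdvd hMp hρ hρs (fun p _ r => hdist p r)).1 ζ Z
    rw [hval] at this
    refine le_trans (le_of_eq ?_) this
    unfold Sy.Om Sy.U Sy.Cf Sy.C cl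
    push_cast
    rfl
  · have := (h2 (ℕ × (Fin m → ℤ)) q (B ^ (σ.n + σ.a1 + σ.a3)) (B ^ σ.e l) (σ.GX B)
      (fun p => σ.Y B p.1 p.2) (fun p r => (B : ℤ) ^ σ.e K * (σ.Y B p.1 p.2 r / (B : ℤ) ^ σ.e K))
      ((B : ℝ) ^ σ.e K) hs hdvd hMp hρ hρs (fun p _ r => by
        rw [abs_sub_comm]
        exact hdist p r)).1 ζ Z
    rw [hval] at this
    refine le_trans (le_of_eq ?_) this
    unfold Sy.Om Sy.U Sy.Cf Sy.C cl
    push_cast
    rfl

theorem afl_hh (h2 : ST_FANO) {m q : ℕ} (σ : Sy m q) (B : ℕ) (hB : 2 ≤ B) (K l j : ℕ) (hl : l ≤ K)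
    (hK : K ≤ σ.n) :
    |cent (σ.Om B) (fun ω => σ.Cf B K l ω.1 ω.2) (fun ω => (σ.tr B j ω.1.2, ω.1.1, ω.2)) - σ.hh B j l| ≤
      q * ((((K - l : ℕ) : ℝ) * Real.log B + 2) / (B : ℝ) ^ (K - l)) := by
  obtain ⟨ha, hb⟩ := afl_fano h2 σ B hB K l hl hK (fun ω : BS m q => (σ.tr B j ω.1.2, ω.1.1, ω.2))
  have h3 := cent_change_left (σ.Om B) (fun ω => σ.Cf B K l ω.1 ω.2) (σ.C B l)
    (fun ω => (σ.tr B j ω.1.2, ω.1.1, ω.2))
  have h4 := cent_change_left (σ.Om B) (σ.C B l) (fun ω => σ.Cf B K l ω.1 ω.2)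
    (fun ω => (σ.tr B j ω.1.2, ω.1.1, ω.2))
  unfold Sy.hh
  rw [abs_le]
  constructor <;> linarith

theorem st_AFL (h1 : ST_PARA) (h2 : ST_FANO) (_h3 : ST_IND) (h4 : ST_GEO) : ST_AFL := by
  intro m q B R κ D C σ hB hR hD hOk k K i l0 l2 hki hil hl hlK hK
  have hB' : (2 : ℝ) ≤ B := by exact_mod_cast hB
  obtain ⟨p1, p2, p3, _, _⟩ := h1 m q B k K σ
  have hg := h4 m q B R κ D C σ hB hR hD hOk
  have htr : ∀ k k' : ℕ, k ≤ k' → k' ≤ σ.n → ∀ x, σ.tr B k x = cl B (k' - k) (σ.tr B k' x) := hg.2.2.2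
  constructor
  · unfold Sy.af
    have := cent_mono_right (σ.Pa B) (fun ω => σ.Cf B K l2 ω.1.1 ω.2)
      (fun ω => (σ.tr B i ω.1.1.2, σ.Cf B K l0 ω.1.1 ω.2, ω.1.1.1, ω.2))
      (fun ω => (σ.tr B i (σ.x1 B k K ω), σ.tr B i ω.1.1.2, σ.Cf B K l0 ω.1.1 ω.2, ω.1.1.1, ω.2))
      (fun x _ y _ e => (Prod.ext_iff.1 e).2)
    linarith
  · -- identity
    have hid := afl_id (σ.Pa B) (fun ω : PS m q => σ.Cf B K l2 ω.1.1 ω.2) (fun ω => σ.Cf B K l0 ω.1.1 ω.2)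
      (fun ω => σ.tr B i ω.1.1.2) (fun ω => σ.tr B i (σ.x1 B k K ω)) (fun ω => σ.tr B k ω.1.1.2)
      (fun ω => (ω.1.1.1, ω.2)) (by
        intro x _ y _ e
        have hel : σ.e l0 = σ.e l2 + (l2 - l0) := by
          unfold Sy.e
          omega
        have key : ∀ w : PS m q, σ.Cf B K l0 w.1.1 w.2 = cl B (l2 - l0) (σ.Cf B K l2 w.1.1 w.2) := by
          intro w
          funext r
          simp only [Sy.Cf, cl]
          rw [hel, pow_add, Int.ediv_ediv_of_nonneg (by positivity)]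
        rw [key x, key y, e]) (by
        intro x _ y _ e
        rw [htr k i hki (by omega) x.1.1.2, htr k i hki (by omega) y.1.1.2, e]) (by
        intro x hx y hy e
        have ex : σ.tr B k (σ.x1 B k K x) = σ.tr B k x.1.1.2 := by
          have := (p1 x hx).2
          unfold Sy.ff at this
          exact (Prod.ext_iff.1 (Prod.ext_iff.1 this).2).1
        have ey : σ.tr B k (σ.x1 B k K y) = σ.tr B k y.1.1.2 := by
          have := (p1 y hy).2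
          unfold Sy.ff at this
          exact (Prod.ext_iff.1 (Prod.ext_iff.1 this).2).1
        rw [← ex, ← ey, htr k i hki (by omega) (σ.x1 B k K x), htr k i hki (by omega) (σ.x1 B k K y), e])
    -- the two entropies on the base space
    have a1 : ∀ l, ent (σ.Pa B) (fun ω => (σ.Cf B K l ω.1.1 ω.2, σ.tr B k ω.1.1.2, (ω.1.1.1, ω.2))) =
        ent (σ.Om B) (fun ω => (σ.Cf B K l ω.1 ω.2, σ.tr B k ω.1.2, (ω.1.1, ω.2))) := fun l =>
      p2 _ (fun ω : BS m q => (σ.Cf B K l ω.1 ω.2, σ.tr B k ω.1.2, (ω.1.1, ω.2)))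
    have a2 : ∀ l, ent (σ.Pa B) (fun ω => (σ.tr B i (σ.x1 B k K ω), σ.Cf B K l ω.1.1 ω.2, (ω.1.1.1, ω.2))) =
        ent (σ.Om B) (fun ω => (σ.Cf B K l ω.1 ω.2, σ.tr B i ω.1.2, (ω.1.1, ω.2))) := by
      intro l
      have e0 := p3 _ (fun ω : BS m q => (σ.Cf B K l ω.1 ω.2, σ.tr B i ω.1.2, (ω.1.1, ω.2)))
      rw [← e0]
      have key : ∀ w ∈ σ.Pa B, σ.Cf B K l (w.1.1.1, σ.x1 B k K w) w.2 = σ.Cf B K l w.1.1 w.2 := by
        intro w hw
        have := (p1 w hw).2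
        unfold Sy.ff at this
        have h5 := (Prod.ext_iff.1 (Prod.ext_iff.1 this).2).2
        funext r
        have h6 := congrFun h5 r
        simp only [cl] at h6
        simp only [Sy.Cf, cl]
        rw [h6]
      refine ent_congr _ _ _ fun x hx y hy => ?_
      simp only [Prod.mk.injEq]
      rw [key x hx, key y hy]
      tauto
    simp only [a1, a2] at hid
    have b1 := abs_le.1 (afl_hh h2 σ B hB K l2 k hlK hK)
    have b2 := abs_le.1 (afl_hh h2 σ B hB K l0 k (by omega) hK)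
    have b3 := abs_le.1 (afl_hh h2 σ B hB K l2 i hlK hK)
    have b4 := abs_le.1 (afl_hh h2 σ B hB K l0 i (by omega) hK)
    have hf := afl_f B hB (K - l2) (K - l0) (by omega)
    have hf' : (q : ℝ) * ((((K - l0 : ℕ) : ℝ) * Real.log B + 2) / (B : ℝ) ^ (K - l0)) ≤
        q * ((((K - l2 : ℕ) : ℝ) * Real.log B + 2) / (B : ℝ) ^ (K - l2)) :=
      mul_le_mul_of_nonneg_left hf (Nat.cast_nonneg q)
    have hc : (((K - l2 : ℕ) : ℝ)) = (K : ℝ) - l2 := Nat.cast_sub hlK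
    rw [hc] at b1 b3 hf'
    unfold cent at b1 b2 b3 b4
    unfold Sy.af Sy.Jj
    rw [hid]
    have hfin : 4 * (q : ℝ) * ((((K : ℝ) - l2) * Real.log B + 2) / (B : ℝ) ^ (K - l2)) =
      4 * ((q : ℝ) * ((((K : ℝ) - l2) * Real.log B + 2) / (B : ℝ) ^ (K - l2))) := by ring
    rw [hfin]
    linarith [b1.1, b1.2, b2.1, b2.2, b3.1, b3.2, b4.1, b4.2]

end Pool.Agent.Helper70.SK
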